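import Mathlib

/-! Height of primes minimal over the ideal of maximal minors (Eagon-Northcott / Macaulay bound). -/

namespace H54.AG

open Polynomial

universe u

/-- rows of `M` are linearly dependent modulo the prime `Q` -/
def RowDep {R : Type u} [CommRing R] {n m : ℕ} (M : Matrix (Fin n) (Fin m) R) (Q : Ideal R) : Prop :=
  ∃ v : Fin n → R, (∃ i, v i ∉ Q) ∧ ∀ j, ∑ i, v i * M i j ∈ Q

/-- all maximal minors of `M` belong to `Q` -/
def MinorsIn {R : Type u} [CommRing R] {n m : ℕ} (M : Matrix (Fin n) (Fin m) R) (Q : Ideal R) : Prop :=
  ∀ e : Fin n → Fin m, (M.submatrix id e).det ∈ Q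

/-- over a field: all maximal minors vanish iff rows are dependent -/
theorem field_dep {K : Type*} [Field K] {n m : ℕ} (M : Matrix (Fin n) (Fin m) K) :
    (∀ e : Fin n → Fin m, (M.submatrix id e).det = 0) ↔ ∃ v : Fin n → K, v ≠ 0 ∧ Matrix.vecMul v M = 0 := by
  classical
  constructor
  · intro h
    by_contra hcon
    push Not at hcon
    -- rows independent, so the columns span K^n
    have hinj : Function.Injective (Matrix.vecMulLinear M) := by
      rw [← LinearMap.ker_eq_bot, LinearMap.ker_eq_bot']
      intro v hv
      by_contra hv0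
      exact hcon v hv0 hv
    have hrow : LinearIndependent K M.row := by
      exact Matrix.vecMul_injective_iff.mp hinj
    have hspan : Submodule.span K (Set.range M.col) = ⊤ := by
      apply Submodule.eq_top_of_finrank_eq
      rw [← Matrix.rank_eq_finrank_span_cols, LinearIndependent.rank_matrix hrow]
      simp
    -- choose a basis among the columns
    obtain ⟨κ, a, ha, hsp, hli⟩ := exists_linearIndependent' K M.col
    rw [hspan] at hsp
    have b : Module.Basis κ K (Fin n → K) := Module.Basis.mk hli (by rw [hsp])
    have : Fintype κ := by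
      have : Finite κ := Finite.of_injective a ha
      exact Fintype.ofFinite κ
    have hcard : Fintype.card κ = n := by
      have := Module.finrank_eq_card_basis b
      simpa using this.symm
    let eq : Fin n ≃ κ := (Fintype.equivFinOfCardEq hcard).symm
    have hli2 : LinearIndependent K (fun i : Fin n => M.col (a (eq i))) := hli.comp eq eq.injective
    have hdet := h (fun i => a (eq i))
    have hunit : IsUnit (M.submatrix id (fun i => a (eq i))) := by
      rw [← Matrix.linearIndependent_cols_iff_isUnit]
      exact hli2
    rw [Matrix.isUnit_iff_isUnit_det, hdet] at hunit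
    exact not_isUnit_zero hunit
  · rintro ⟨v, hv, hvM⟩ e
    apply Matrix.exists_vecMul_eq_zero_iff.mp
    refine ⟨v, hv, ?_⟩
    ext j
    have := congrFun hvM (e j)
    simpa [Matrix.vecMul, dotProduct] using this

theorem rowDep_iff_minorsIn {R : Type u} [CommRing R] {n m : ℕ} (M : Matrix (Fin n) (Fin m) R)
    (Q : Ideal R) [Q.IsPrime] : RowDep M Q ↔ MinorsIn M Q := by
  classical
  let K := FractionRing (R ⧸ Q)
  let f : R →+* K := (algebraMap (R ⧸ Q) K).comp (Ideal.Quotient.mk Q)
  have hf : ∀ x, f x = 0 ↔ x ∈ Q := by
    intro x
    simp only [f, RingHom.comp_apply]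
    rw [map_eq_zero_iff _ (IsFractionRing.injective (R ⧸ Q) K), Ideal.Quotient.eq_zero_iff_mem]
  have key := field_dep (M.map f)
  have h1 : MinorsIn M Q ↔ ∀ e : Fin n → Fin m, ((M.map f).submatrix id e).det = 0 := by
    apply forall_congr'
    intro e
    rw [← hf, RingHom.map_det]
    rfl
  rw [h1, key]
  constructor
  · rintro ⟨v, ⟨i, hi⟩, hv⟩
    refine ⟨fun i => f (v i), ?_, ?_⟩
    · intro h0
      exact hi ((hf _).1 (congrFun h0 i))
    · ext j
      have := (hf _).2 (hv j)
      simpa [Matrix.vecMul, dotProduct, map_sum, map_mul] using this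
  · rintro ⟨v, hv, hvM⟩
    obtain ⟨b, hb⟩ := IsLocalization.exist_integer_multiples_of_finite (nonZeroDivisors (R ⧸ Q)) v
    choose w hw using hb
    choose w' hw' using fun i => Ideal.Quotient.mk_surjective (w i)
    have hfw : ∀ i, f (w' i) = (algebraMap (R ⧸ Q) K b) * v i := by
      intro i
      simp only [f, RingHom.comp_apply]
      rw [hw', hw, Algebra.smul_def]
    have hb0 : algebraMap (R ⧸ Q) K b ≠ 0 := by
      intro h
      rw [map_eq_zero_iff _ (IsFractionRing.injective (R ⧸ Q) K)] at h
      exact nonZeroDivisors.ne_zero b.2 h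
    refine ⟨w', ?_, ?_⟩
    · obtain ⟨i, hi⟩ := Function.ne_iff.mp hv
      refine ⟨i, fun h => hi ?_⟩
      have h2 := (hf _).2 h
      rw [hfw] at h2
      rcases mul_eq_zero.mp h2 with h3 | h3
      · exact absurd h3 hb0
      · exact h3
    · intro j
      rw [← hf, map_sum]
      have := congrFun hvM j
      simp only [Matrix.vecMul, dotProduct, Matrix.map_apply, Pi.zero_apply] at this
      calc ∑ i, f (w' i * M i j) = ∑ i, algebraMap (R ⧸ Q) K b * (v i * f (M i j)) := by
            apply Finset.sum_congr rfl
            intro i _
            rw [map_mul, hfw]; ring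
        _ = 0 := by rw [← Finset.mul_sum, this, mul_zero]

/-- elimination of one row and one column at an entry outside the prime -/
theorem rowDep_elim {R : Type u} [CommRing R] {n m : ℕ} (M : Matrix (Fin (n+1)) (Fin (m+1)) R)
    (i0 : Fin (n+1)) (j0 : Fin (m+1)) (Q : Ideal R) [Q.IsPrime] (ha : M i0 j0 ∉ Q) :
    RowDep (Matrix.of fun (i : Fin n) (j : Fin m) =>
      M i0 j0 * M (i0.succAbove i) (j0.succAbove j) - M (i0.succAbove i) j0 * M i0 (j0.succAbove j)) Q
      ↔ RowDep M Q := by
  constructor
  · rintro ⟨w, ⟨i1, hi1⟩, hw⟩
    refine ⟨i0.insertNth (-∑ i, w i * M (i0.succAbove i) j0) (fun i => M i0 j0 * w i), ⟨i0.succAbove i1, ?_⟩, ?_⟩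
    · simp only [Fin.insertNth_apply_succAbove]
      intro h
      rcases ‹Q.IsPrime›.mem_or_mem h with h | h
      · exact ha h
      · exact hi1 h
    · intro j
      rw [Fin.sum_univ_succAbove _ i0]
      simp only [Fin.insertNth_apply_same, Fin.insertNth_apply_succAbove]
      refine j0.succAboveCases ?_ ?_ j
      · have : -(∑ i, w i * M (i0.succAbove i) j0) * M i0 j0 + ∑ i, M i0 j0 * w i * M (i0.succAbove i) j0 = 0 := by
          rw [neg_mul, Finset.sum_mul, neg_add_eq_zero]
          apply Finset.sum_congr rfl
          intro i _
          ring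
        rw [this]
        exact Q.zero_mem
      · intro j
        have hj := hw j
        simp only [Matrix.of_apply] at hj
        convert hj using 1
        rw [neg_mul, Finset.sum_mul, ← Finset.sum_neg_distrib, ← Finset.sum_add_distrib]
        apply Finset.sum_congr rfl
        intro i _
        ring
  · rintro ⟨v, ⟨i1, hi1⟩, hv⟩
    have key : v i0 * M i0 j0 + ∑ i : Fin n, v (i0.succAbove i) * M (i0.succAbove i) j0 ∈ Q := by
      have := hv j0
      rwa [Fin.sum_univ_succAbove _ i0] at this
    refine ⟨fun i => v (i0.succAbove i), ?_, ?_⟩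
    · by_contra hcon
      push Not at hcon
      have h0 : v i0 ∈ Q := by
        have hs : ∑ i : Fin n, v (i0.succAbove i) * M (i0.succAbove i) j0 ∈ Q :=
          Ideal.sum_mem _ fun i _ => Q.mul_mem_right _ (hcon i)
        have h2 : v i0 * M i0 j0 ∈ Q := (Submodule.add_mem_iff_left Q hs).mp key
        exact (‹Q.IsPrime›.mem_or_mem h2).resolve_right ha
      revert hi1
      refine i0.succAboveCases (α := fun i1 => v i1 ∉ Q → False) ?_ ?_ i1
      · exact fun h => h h0
      · exact fun i h => h (hcon i)
    · intro j
      simp only [Matrix.of_apply]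
      have hj := hv (j0.succAbove j)
      rw [Fin.sum_univ_succAbove _ i0] at hj
      have e1 : ∑ i : Fin n, v (i0.succAbove i) * (M i0 j0 * M (i0.succAbove i) (j0.succAbove j) -
          M (i0.succAbove i) j0 * M i0 (j0.succAbove j)) =
          M i0 j0 * (v i0 * M i0 (j0.succAbove j) + ∑ i : Fin n, v (i0.succAbove i) * M (i0.succAbove i) (j0.succAbove j))
          - (v i0 * M i0 j0 + ∑ i : Fin n, v (i0.succAbove i) * M (i0.succAbove i) j0) * M i0 (j0.succAbove j) := by
        rw [mul_add, add_mul, Finset.mul_sum, Finset.sum_mul]
        have : ∀ a b c d : R, (a + b) - (c + d) = (a - c) + (b - d) := fun a b c d => by ring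
        rw [this, ← Finset.sum_sub_distrib]
        have h0 : M i0 j0 * (v i0 * M i0 (j0.succAbove j)) - v i0 * M i0 j0 * M i0 (j0.succAbove j) = 0 := by ring
        rw [h0, zero_add]
        apply Finset.sum_congr rfl
        intro i _
        ring
      rw [e1]
      exact Q.sub_mem (Q.mul_mem_left _ hj) (Q.mul_mem_right _ key)


/-- Going up from `P` to `P[X]` does not decrease the height. -/
theorem height_le_height_map_C {R : Type u} [CommRing R] [IsNoetherianRing R] (P : Ideal R) [P.IsPrime] :
    P.height ≤ (P.map (C : R →+* R[X])).height := by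
  have hlies : (P.map (C : R →+* R[X])).LiesOver P := by
    constructor
    ext x
    constructor
    · intro hx
      exact Ideal.mem_map_of_mem _ hx
    · intro hx
      have h1 : (C x : R[X]) ∈ P.map (C : R →+* R[X]) := hx
      rw [Ideal.mem_map_C_iff] at h1
      simpa using h1 0
  have : (P.map (C : R →+* R[X])).IsPrime := Ideal.isPrime_map_C_of_isPrime
  rw [Ideal.height_eq_height_add_of_liesOver_of_hasGoingDown P (P.map (C : R →+* R[X]))]
  exact le_self_add

/-- Eagon-Northcott height bound, row dependence form: if `P` is minimal among the primes modulo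
which the `n` rows of the `n × m` matrix `M` are dependent, then `ht P + n ≤ m + 1`. -/
theorem height_add_le (n : ℕ) : ∀ (R : Type u) [CommRing R] [IsNoetherianRing R] (m : ℕ)
    (M : Matrix (Fin n) (Fin m) R) (P : Ideal R) [P.IsPrime], n ≤ m + 1 → RowDep M P →
    (∀ Q : Ideal R, Q.IsPrime → Q < P → ¬ RowDep M Q) → P.height + n ≤ m + 1 := by
  induction n with
  | zero =>
    rintro R _ _ m M P _ - ⟨v, ⟨i, -⟩, -⟩ -
    exact i.elim0
  | succ n IH =>
    -- an entry outside the prime
    have UC : ∀ (R : Type u) [CommRing R] [IsNoetherianRing R] (m : ℕ)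
        (M : Matrix (Fin (n+1)) (Fin (m+1)) R) (P : Ideal R) [P.IsPrime], n + 1 ≤ (m + 1) + 1 →
        RowDep M P → (∀ Q : Ideal R, Q.IsPrime → Q < P → ¬ RowDep M Q) →
        (∃ i0 j0, M i0 j0 ∉ P) → P.height + (n + 1 : ℕ) ≤ (m + 1 : ℕ) + 1 := by
      rintro R _ _ m M P _ hnm hdep hmin ⟨i0, j0, ha⟩
      have h1 := IH R m _ P (by omega) ((rowDep_elim M i0 j0 P ha).2 hdep) (by
        intro Q hQ hlt hd
        exact hmin Q hQ hlt ((rowDep_elim M i0 j0 Q (fun h => ha (hlt.le h))).1 hd))
      push_cast
      rw [← add_assoc]
      exact add_le_add_left h1 1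
    intro R _ _ m M P _ hnm hdep hmin
    rcases Nat.eq_zero_or_pos n with rfl | hn
    · -- one row: Krull
      change Matrix (Fin 1) (Fin m) R at M
      have hrow : ∀ Q : Ideal R, Q.IsPrime → (RowDep M Q ↔ ∀ j, M 0 j ∈ Q) := by
        intro Q hQ
        constructor
        · rintro ⟨v, ⟨i, hi⟩, hv⟩ j
          have hi0 : i = (0 : Fin 1) := Subsingleton.elim (α := Fin 1) _ _
          subst hi0
          have := hv j
          rw [Fin.sum_univ_one (fun i : Fin 1 => v i * M i j)] at this
          exact (hQ.mem_or_mem this).resolve_left hi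
        · intro h
          refine ⟨fun _ => 1, ⟨0, (Ideal.ne_top_iff_one Q).mp hQ.ne_top⟩, fun j => ?_⟩
          simpa using h j
      have hPmin : P ∈ (Ideal.span (Set.range (M 0))).minimalPrimes := by
        refine ⟨⟨‹_›, ?_⟩, ?_⟩
        · rw [Ideal.span_le]
          rintro _ ⟨j, rfl⟩
          exact (hrow P ‹_›).1 hdep j
        · rintro Q ⟨hQ, hQs⟩ hQP
          by_contra hcon
          refine hmin Q hQ (lt_of_le_not_ge hQP hcon) ((hrow Q hQ).2 fun j => hQs (Ideal.subset_span ⟨j, rfl⟩))
      have h1 := Ideal.height_le_card_of_mem_minimalPrimes_span (Set.finite_range (M 0)) hPmin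
      have h2 : (Set.range (M 0)).ncard ≤ m := by
        rw [← Set.image_univ]
        calc _ ≤ (Set.univ : Set (Fin m)).ncard := Set.ncard_image_le
          _ = m := by simp [Set.ncard_univ]
      have h3 : P.height ≤ (m : ℕ∞) := h1.trans (by exact_mod_cast h2)
      simpa using add_le_add_left h3 1
    · obtain ⟨m, rfl⟩ : ∃ m', m = m' + 1 := ⟨m - 1, by omega⟩
      by_cases hent : ∃ i0 j0, M i0 j0 ∉ P
      · exact_mod_cast UC R m M P hnm hdep hmin hent
      · push Not at hent
        -- add a variable to the entry (0,0)
        let M' : Matrix (Fin (n+1)) (Fin (m+1)) R[X] :=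
          Matrix.of fun i j => C (M i j) + if i = 0 ∧ j = 0 then X else 0
        let P' : Ideal R[X] := P.map (C : R →+* R[X])
        have hP' : P'.IsPrime := Ideal.isPrime_map_C_of_isPrime
        have hCP : ∀ x, x ∈ P → (C x : R[X]) ∈ P' := fun x hx => Ideal.mem_map_of_mem _ hx
        have hXP : (X : R[X]) ∉ P' := by
          intro h
          have h1 := (Ideal.mem_map_C_iff.mp h) 1
          rw [coeff_X_one] at h1
          exact (Ideal.ne_top_iff_one P).mp (Ideal.IsPrime.ne_top ‹_›) h1
        have hdep' : RowDep M' P' := by
          refine ⟨Pi.single (Fin.last n) 1, ⟨Fin.last n, ?_⟩, ?_⟩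
          · rw [Pi.single_eq_same]
            exact (Ideal.ne_top_iff_one P').mp hP'.ne_top
          · intro j
            rw [Finset.sum_eq_single (Fin.last n)]
            · rw [Pi.single_eq_same, one_mul]
              simp only [M', Matrix.of_apply]
              rw [if_neg]
              · rw [add_zero]
                exact hCP _ (hent _ _)
              · rintro ⟨h, -⟩
                have := congrArg Fin.val h
                simp only [Fin.val_last, Fin.val_zero] at this
                omega
            · intro i _ hi
              rw [Pi.single_eq_of_ne hi, zero_mul]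
            · simp
        -- evaluation at zero
        let ev : R[X] →+* R := Polynomial.evalRingHom 0
        let PX : Ideal R[X] := P.comap ev
        have hPX : PX.IsPrime := Ideal.comap_isPrime _ _
        have hP'PX : P' < PX := by
          refine lt_of_le_of_ne ?_ ?_
          · rw [Ideal.map_le_iff_le_comap]
            intro x hx
            change ev (C x) ∈ P
            simpa [ev] using hx
          · intro h
            apply hXP
            rw [h]
            change ev X ∈ P
            simp [ev]
        have hmin' : ∀ Q : Ideal R[X], Q.IsPrime → Q < P' → ¬ RowDep M' Q := by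
          intro Q hQ hlt hQdep
          have hQdep2 : MinorsIn M' Q := (rowDep_iff_minorsIn M' Q).1 hQdep
          -- `PX` is minimal over `Q + (X)`
          have hmem : PX ∈ (Ideal.span (insert (X : R[X]) (Q : Set R[X]))).minimalPrimes := by
            refine ⟨⟨hPX, ?_⟩, ?_⟩
            · rw [Ideal.span_le]
              rintro x (rfl | hx)
              · change ev X ∈ P
                simp [ev]
              · exact hP'PX.le (hlt.le hx)
            · rintro L ⟨hL, hLs⟩ hLP
              have hXL : (X : R[X]) ∈ L := hLs (Ideal.subset_span (Set.mem_insert _ _))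
              have hQL : Q ≤ L := fun x hx => hLs (Ideal.subset_span (Set.mem_insert_of_mem _ hx))
              let L0 : Ideal R := L.comap (C : R →+* R[X])
              have hL0 : L0.IsPrime := Ideal.comap_isPrime _ _
              have hdiff : ∀ f : R[X], f - C (ev f) ∈ L := by
                intro f
                have : (X : R[X]) ∣ f - C (ev f) := by
                  rw [Polynomial.X_dvd_iff]
                  simp [ev, coeff_zero_eq_eval_zero]
                obtain ⟨g, hg⟩ := this
                rw [hg]
                exact L.mul_mem_right _ hXL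
              have hLL0 : ∀ f : R[X], f ∈ L ↔ ev f ∈ L0 := by
                intro f
                have := hdiff f
                constructor
                · intro hf
                  change C (ev f) ∈ L
                  have h2 := L.sub_mem hf this
                  simpa using h2
                · intro hf
                  have h2 := L.add_mem this (show C (ev f) ∈ L from hf)
                  simpa using h2
              have hL0P : L0 ≤ P := by
                intro x hx
                have := hLP (show C x ∈ L from hx)
                change ev (C x) ∈ P at this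
                simpa [ev] using this
              have hminor : MinorsIn M L0 := by
                intro e
                have h1 := hQL (hQdep2 e)
                rw [hLL0, RingHom.map_det] at h1
                convert h1 using 2
                ext i j
                simp only [M', ev, Matrix.submatrix_apply, id_eq, RingHom.mapMatrix_apply,
                  Matrix.map_apply, Matrix.of_apply, map_add, coe_evalRingHom, eval_C]
                split_ifs <;> simp
              have hL0eq : L0 = P := by
                by_contra hne
                exact hmin L0 hL0 (lt_of_le_of_ne hL0P hne) ((rowDep_iff_minorsIn M L0).2 hminor)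
              intro f hf
              rw [hLL0, hL0eq]
              exact hf
          have h3 := Ideal.mem_minimalPrimes_span_of_mem_minimalPrimes_span_insert hP'PX X (Q : Set R[X]) hmem
            (Q : Set R[X]) (fun x hx => hlt.le hx) (fun x hx => Ideal.le_radical (Ideal.subset_span (Set.mem_insert_of_mem _ hx)))
          rw [Ideal.span_eq] at h3
          exact not_le_of_gt hlt (h3.2 ⟨hQ, le_rfl⟩ hlt.le)
        have hent' : ∃ i0 j0, M' i0 j0 ∉ P' := by
          refine ⟨0, 0, fun h => hXP ?_⟩
          simp only [M', Matrix.of_apply, and_self, if_true] at h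
          have h2 := P'.sub_mem h (hCP _ (hent 0 0))
          simpa using h2
        have hfin := UC R[X] m M' P' hnm hdep' hmin' hent'
        have := height_le_height_map_C P
        calc P.height + ((n + 1 : ℕ) : ℕ∞) ≤ P'.height + ((n + 1 : ℕ) : ℕ∞) := add_le_add_left this _
          _ ≤ _ := by exact_mod_cast hfin

/-- Height bound for a prime minimal over the ideal of maximal minors. -/
theorem height_le_of_minors {R : Type u} [CommRing R] [IsNoetherianRing R] {n m : ℕ}
    (hnm : n ≤ m + 1) (M : Matrix (Fin n) (Fin m) R) (P : Ideal R)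
    (hP : P ∈ (Ideal.span {d | ∃ e : Fin n → Fin m, d = (M.submatrix id e).det}).minimalPrimes) :
    P.height + n ≤ m + 1 := by
  have hPp : P.IsPrime := hP.1.1
  refine height_add_le n R m M P hnm ?_ ?_
  · rw [rowDep_iff_minorsIn]
    intro e
    exact hP.1.2 (Ideal.subset_span ⟨e, rfl⟩)
  · intro Q hQ hlt hdep
    rw [rowDep_iff_minorsIn] at hdep
    refine not_le_of_gt hlt (hP.2 ⟨hQ, ?_⟩ hlt.le)
    rw [Ideal.span_le]
    rintro _ ⟨e, rfl⟩
    exact hdep e

end H54.AG
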